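import Pool.Agent.H95.LBD.Basic

/-!
PROJECT DS (MP_0d9ad5_pr), chain flow (note 2718). Random walk with steps `L v`, `v_{i0} = 2`, `v_i = 1` or `-1`.
-/

set_option autoImplicit false

namespace H54CF

open H5DF H95LBD ENNReal

variable {d : ℕ}

/-! ### binomial coefficients -/

lemma central_sq (n : ℕ) : (Nat.centralBinom n) ^ 2 * (2 * n + 1) ≤ 16 ^ n := by
  induction n with
  | zero => simp
  | succ n ih =>
    have h := Nat.succ_mul_centralBinom_succ n
    have h1 : (n + 1) ^ 2 * ((Nat.centralBinom (n + 1)) ^ 2 * (2 * (n + 1) + 1)) ≤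
        (n + 1) ^ 2 * 16 ^ (n + 1) := by
      calc (n + 1) ^ 2 * ((Nat.centralBinom (n + 1)) ^ 2 * (2 * (n + 1) + 1))
          = ((n + 1) * Nat.centralBinom (n + 1)) ^ 2 * (2 * n + 3) := by ring
        _ = (2 * (2 * n + 1) * Nat.centralBinom n) ^ 2 * (2 * n + 3) := by rw [h]
        _ = ((Nat.centralBinom n) ^ 2 * (2 * n + 1)) * (4 * (2 * n + 1) * (2 * n + 3)) := by ring
        _ ≤ 16 ^ n * (4 * (2 * n + 1) * (2 * n + 3)) := Nat.mul_le_mul_right _ ih
        _ ≤ 16 ^ n * (16 * (n + 1) ^ 2) := Nat.mul_le_mul_left _ (by nlinarith)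
        _ = (n + 1) ^ 2 * 16 ^ (n + 1) := by ring
    exact Nat.le_of_mul_le_mul_left h1 (by positivity)

lemma choose_sq (t k : ℕ) : (t.choose k) ^ 2 * (t + 1) ≤ 4 ^ t := by
  have h0 : t.choose k ≤ t.choose (t / 2) := Nat.choose_le_middle k t
  rcases Nat.even_or_odd' t with ⟨n, rfl | rfl⟩
  · have h1 : (2 * n) / 2 = n := by omega
    rw [h1] at h0
    have h2 := central_sq n
    rw [Nat.centralBinom_eq_two_mul_choose] at h2
    calc ((2 * n).choose k) ^ 2 * (2 * n + 1) ≤ ((2 * n).choose n) ^ 2 * (2 * n + 1) :=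
          Nat.mul_le_mul_right _ (Nat.pow_le_pow_left h0 2)
      _ ≤ 16 ^ n := h2
      _ = 4 ^ (2 * n) := by rw [pow_mul]; norm_num
  · have h1 : (2 * n + 1) / 2 = n := by omega
    rw [h1] at h0
    have h2 := central_sq (n + 1)
    rw [Nat.centralBinom_eq_two_mul_choose] at h2
    have h3 : (2 * (n + 1)).choose (n + 1) = 2 * (2 * n + 1).choose n := by
      have e : 2 * (n + 1) = (2 * n + 1) + 1 := by ring
      rw [e, Nat.choose_succ_succ, Nat.choose_symm_half]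
      ring
    rw [h3] at h2
    have h4 : ((2 * n + 1).choose n) ^ 2 * (2 * n + 3) * 4 ≤ 4 ^ (2 * n + 1) * 4 := by
      calc ((2 * n + 1).choose n) ^ 2 * (2 * n + 3) * 4
          = (2 * (2 * n + 1).choose n) ^ 2 * (2 * (n + 1) + 1) := by ring
        _ ≤ 16 ^ (n + 1) := h2
        _ = 4 ^ (2 * n + 1) * 4 := by
            rw [show (16 : ℕ) = 4 ^ 2 by norm_num, ← pow_mul]
            ring
    have h5 := Nat.le_of_mul_le_mul_right h4 (by norm_num)
    calc ((2 * n + 1).choose k) ^ 2 * (2 * n + 1 + 1)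
        ≤ ((2 * n + 1).choose n) ^ 2 * (2 * n + 3) :=
          Nat.mul_le_mul (Nat.pow_le_pow_left h0 2) (by omega)
      _ ≤ 4 ^ (2 * n + 1) := h5

/-- `1 / sqrt (t+1)` -/
noncomputable def bt (t : ℕ) : ℝ≥0∞ := ENNReal.ofReal (1 / Real.sqrt (t + 1))

lemma choose_le_bt (t k : ℕ) : (t.choose k : ℝ≥0∞) * ((2 : ℝ≥0∞) ^ t)⁻¹ ≤ bt t := by
  have h := choose_sq t k
  have h1 : ((t.choose k : ℝ)) ^ 2 * (t + 1) ≤ 4 ^ t := by exact_mod_cast h
  have hs : 0 < Real.sqrt ((t : ℝ) + 1) := Real.sqrt_pos.2 (by positivity)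
  have h2 : (t.choose k : ℝ) * Real.sqrt (t + 1) ≤ 2 ^ t := by
    apply le_of_sq_le_sq _ (by positivity)
    rw [mul_pow, Real.sq_sqrt (by positivity)]
    calc (t.choose k : ℝ) ^ 2 * (t + 1) ≤ 4 ^ t := h1
      _ = (2 ^ t) ^ 2 := by rw [← pow_mul, mul_comm, pow_mul]; norm_num
  have h3 : (t.choose k : ℝ) / 2 ^ t ≤ 1 / Real.sqrt (t + 1) := by
    rw [div_le_div_iff₀ (by positivity) hs]
    linarith
  have h4 : (t.choose k : ℝ≥0∞) * ((2 : ℝ≥0∞) ^ t)⁻¹ = ENNReal.ofReal ((t.choose k : ℝ) / 2 ^ t) := by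
    rw [div_eq_mul_inv, ENNReal.ofReal_mul (by positivity), ENNReal.ofReal_inv_of_pos (by positivity),
      ENNReal.ofReal_pow (by norm_num), ENNReal.ofReal_natCast]
    norm_num
  rw [h4]
  exact ENNReal.ofReal_le_ofReal h3

/-! ### the one-dimensional walk -/

/-- one step of the simple walk with steps `L`, `-L` -/
noncomputable def A1 (L : ℕ) (f : ℤ → ℝ≥0∞) (x : ℤ) : ℝ≥0∞ := 2⁻¹ * (f (x - L) + f (x + L))

lemma A1_iter (L : ℕ) (f : ℤ → ℝ≥0∞) (t : ℕ) (x : ℤ) :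
    (A1 L)^[t] f x = ∑ k ∈ Finset.range (t + 1),
      ((t.choose k : ℝ≥0∞) * ((2 : ℝ≥0∞) ^ t)⁻¹) * f (x + L * (2 * k - t)) := by
  induction t generalizing x with
  | zero => simp
  | succ t ih =>
    rw [Function.iterate_succ_apply', A1, ih, ih]
    have h2 : ((2 : ℝ≥0∞) ^ (t + 1))⁻¹ = 2⁻¹ * ((2 : ℝ≥0∞) ^ t)⁻¹ := by
      rw [pow_succ, mul_comm, ENNReal.mul_inv (by left; norm_num) (by left; norm_num)]
    rw [Finset.sum_range_succ' _ (t + 1)]
    simp only [Nat.choose_succ_succ, Nat.cast_add, Nat.choose_zero_right, Nat.cast_one,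
      Nat.cast_zero, mul_zero, zero_sub, h2]
    have e1 : ∑ k ∈ Finset.range (t + 1),
        ((t.choose k : ℝ≥0∞) + (t.choose (k + 1) : ℝ≥0∞)) * (2⁻¹ * ((2 : ℝ≥0∞) ^ t)⁻¹) *
          f (x + L * (2 * ((k : ℤ) + 1) - ((t : ℤ) + 1))) =
        2⁻¹ * (∑ k ∈ Finset.range (t + 1), ((t.choose k : ℝ≥0∞) * ((2 : ℝ≥0∞) ^ t)⁻¹) *
          f (x + L + L * (2 * k - t))) +
        2⁻¹ * (∑ k ∈ Finset.range t, ((t.choose (k + 1) : ℝ≥0∞) * ((2 : ℝ≥0∞) ^ t)⁻¹) *
          f (x - L + L * (2 * ((k : ℤ) + 1) - t))) := by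
      have e3 : ∑ k ∈ Finset.range t, ((t.choose (k + 1) : ℝ≥0∞) * ((2 : ℝ≥0∞) ^ t)⁻¹) *
          f (x - L + L * (2 * ((k : ℤ) + 1) - t)) =
          ∑ k ∈ Finset.range (t + 1), ((t.choose (k + 1) : ℝ≥0∞) * ((2 : ℝ≥0∞) ^ t)⁻¹) *
          f (x - L + L * (2 * ((k : ℤ) + 1) - t)) := by
        rw [Finset.sum_range_succ, Nat.choose_succ_self]
        simp
      rw [e3, Finset.mul_sum, Finset.mul_sum, ← Finset.sum_add_distrib]
      refine Finset.sum_congr rfl fun k _ => ?_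
      have e4 : x + (L : ℤ) * (2 * ((k : ℤ) + 1) - ((t : ℤ) + 1)) = x + L + L * (2 * k - t) := by ring
      have e5 : x - (L : ℤ) + L * (2 * ((k : ℤ) + 1) - t) = x + L + L * (2 * k - t) := by ring
      rw [e4, e5]
      ring
    rw [e1, Finset.sum_range_succ' _ t]
    have e6 : x + (L : ℤ) * -((t : ℤ) + 1) = x - L + L * (2 * ((0 : ℕ) : ℤ) - t) := by
      push_cast
      ring
    push_cast at e6 ⊢
    rw [e6]
    simp only [Nat.choose_zero_right, Nat.cast_one]
    ring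

lemma A1_iter_le (L : ℕ) (f : ℤ → ℝ≥0∞) (t : ℕ) (x : ℤ) :
    (A1 L)^[t] f x ≤ bt t * ∑' k : ℤ, f (x + L * k) := by
  rw [A1_iter]
  calc ∑ k ∈ Finset.range (t + 1),
      ((t.choose k : ℝ≥0∞) * ((2 : ℝ≥0∞) ^ t)⁻¹) * f (x + L * (2 * k - t))
      ≤ ∑ k ∈ Finset.range (t + 1), bt t * f (x + L * (2 * k - t)) :=
        Finset.sum_le_sum fun k _ => by gcongr; exact choose_le_bt t k
    _ = bt t * ∑ k ∈ Finset.range (t + 1), f (x + L * (2 * k - t)) := by rw [Finset.mul_sum]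
    _ = bt t * ∑ k ∈ (Finset.range (t + 1)).image (fun k : ℕ => (2 * k - t : ℤ)), f (x + L * k) := by
        rw [Finset.sum_image]
        intro a _ b _ hab
        simp only at hab
        omega
    _ ≤ bt t * ∑' k : ℤ, f (x + L * k) := by
        gcongr
        exact ENNReal.sum_le_tsum _

/-! ### the walk in `V d` -/

/-- The steps: coordinate `i0` is `2`, the others are `1` or `-1`. -/
def stp (i0 : Fin d) : Finset (V d) :=
  Fintype.piFinset fun i => if i = i0 then ({2} : Finset ℤ) else {-1, 1}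

lemma mem_stp {i0 : Fin d} {v : V d} :
    v ∈ stp i0 ↔ v i0 = 2 ∧ ∀ i, i ≠ i0 → v i = -1 ∨ v i = 1 := by
  unfold stp
  rw [Fintype.mem_piFinset]
  constructor
  · intro h
    refine ⟨by simpa using h i0, fun i hi => by simpa [hi] using h i⟩
  · rintro ⟨h1, h2⟩ i
    by_cases hi : i = i0
    · subst hi; simpa using h1
    · simpa [hi] using h2 i hi

/-- one step of the walk -/
noncomputable def Av (i0 : Fin d) (L : ℕ) (f : V d → ℝ≥0∞) (z : V d) : ℝ≥0∞ :=
  ((2 : ℝ≥0∞) ^ (d - 1))⁻¹ * ∑ v ∈ stp i0, f (z + fun i => (L : ℤ) * v i)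

lemma card_stp (i0 : Fin d) : (stp i0).card = 2 ^ (d - 1) := by
  unfold stp
  rw [Fintype.card_piFinset, ← Finset.prod_erase_mul _ _ (Finset.mem_univ i0)]
  simp only [if_true, Finset.card_singleton, mul_one]
  rw [Finset.prod_congr rfl (g := fun _ => 2)]
  · rw [Finset.prod_const, Finset.card_erase_of_mem (Finset.mem_univ _), Finset.card_univ,
      Fintype.card_fin]
  · intro i hi
    rw [if_neg (Finset.ne_of_mem_erase hi)]
    rfl

lemma Av_prod (i0 : Fin d) (L : ℕ) (f : Fin d → ℤ → ℝ≥0∞) (z : V d) :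
    Av i0 L (fun w => ∏ i, f i (w i)) z =
      f i0 (z i0 + L * 2) * ∏ i ∈ Finset.univ.erase i0, A1 L (f i) (z i) := by
  unfold Av stp
  have h1 : ∑ v ∈ Fintype.piFinset (fun i => if i = i0 then ({2} : Finset ℤ) else {-1, 1}),
      ∏ i, f i ((z + fun i => (L : ℤ) * v i) i) =
      ∏ i, ∑ x ∈ (if i = i0 then ({2} : Finset ℤ) else {-1, 1}), f i (z i + L * x) := by
    rw [Finset.prod_univ_sum]
    rfl
  rw [h1, ← Finset.mul_prod_erase _ _ (Finset.mem_univ i0)]
  simp only [if_true, Finset.sum_singleton]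
  have h2 : ∏ i ∈ Finset.univ.erase i0,
      ∑ x ∈ (if i = i0 then ({2} : Finset ℤ) else {-1, 1}), f i (z i + L * x) =
      ∏ i ∈ Finset.univ.erase i0, (2 * A1 L (f i) (z i)) := by
    refine Finset.prod_congr rfl fun i hi => ?_
    rw [if_neg (Finset.ne_of_mem_erase hi), Finset.sum_pair (by norm_num), A1, ← mul_assoc,
      ENNReal.mul_inv_cancel (by norm_num) (by norm_num), one_mul]
    congr 2 <;> ring
  rw [h2, Finset.prod_mul_distrib, Finset.prod_const, Finset.card_erase_of_mem (Finset.mem_univ _),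
    Finset.card_univ, Fintype.card_fin]
  rw [mul_left_comm, ← mul_assoc (((2 : ℝ≥0∞) ^ (d - 1))⁻¹),
    ENNReal.inv_mul_cancel (by positivity) (by simp), one_mul]

lemma Av_iter_prod (i0 : Fin d) (L : ℕ) (f : Fin d → ℤ → ℝ≥0∞) (t : ℕ) :
    (Av i0 L)^[t] (fun w => ∏ i, f i (w i)) =
      fun z => f i0 (z i0 + L * 2 * t) * ∏ i ∈ Finset.univ.erase i0, (A1 L)^[t] (f i) (z i) := by
  induction t with
  | zero =>
    funext z
    simp only [Function.iterate_zero, id, Nat.cast_zero, mul_zero, add_zero]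
    rw [Finset.mul_prod_erase _ (fun i => f i (z i)) (Finset.mem_univ i0)]
  | succ t ih =>
    rw [Function.iterate_succ_apply', ih]
    have h1 : (fun z : V d => f i0 (z i0 + L * 2 * t) *
        ∏ i ∈ Finset.univ.erase i0, (A1 L)^[t] (f i) (z i)) =
        fun w => ∏ i, (if i = i0 then fun x => f i0 (x + L * 2 * t) else (A1 L)^[t] (f i)) (w i) := by
      funext z
      rw [← Finset.mul_prod_erase _ _ (Finset.mem_univ i0), if_pos rfl]
      congr 1
      refine Finset.prod_congr rfl fun i hi => ?_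
      rw [if_neg (Finset.ne_of_mem_erase hi)]
    rw [h1]
    funext z
    rw [Av_prod, if_pos rfl]
    congr 1
    · congr 1
      push_cast
      ring
    · refine Finset.prod_congr rfl fun i hi => ?_
      rw [if_neg (Finset.ne_of_mem_erase hi), Function.iterate_succ_apply']

lemma Av_mono (i0 : Fin d) (L : ℕ) {f g : V d → ℝ≥0∞} (h : ∀ z, f z ≤ g z) (z : V d) :
    Av i0 L f z ≤ Av i0 L g z := by
  unfold Av
  gcongr
  exact h _

lemma Av_iter_mono (i0 : Fin d) (L : ℕ) {f g : V d → ℝ≥0∞} (h : ∀ z, f z ≤ g z) (t : ℕ) (z : V d) :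
    (Av i0 L)^[t] f z ≤ (Av i0 L)^[t] g z := by
  induction t generalizing z with
  | zero => exact h z
  | succ t ih =>
    rw [Function.iterate_succ_apply', Function.iterate_succ_apply']
    exact Av_mono i0 L ih z

lemma Av_sum (i0 : Fin d) (L : ℕ) {ι : Type*} (J : Finset ι) (f : ι → V d → ℝ≥0∞) (z : V d) :
    Av i0 L (fun w => ∑ j ∈ J, f j w) z = ∑ j ∈ J, Av i0 L (f j) z := by
  unfold Av
  rw [Finset.sum_comm, Finset.mul_sum]

lemma Av_iter_sum (i0 : Fin d) (L : ℕ) {ι : Type*} (J : Finset ι) (f : ι → V d → ℝ≥0∞) (t : ℕ)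
    (z : V d) :
    (Av i0 L)^[t] (fun w => ∑ j ∈ J, f j w) z = ∑ j ∈ J, (Av i0 L)^[t] (f j) z := by
  induction t generalizing z with
  | zero => rfl
  | succ t ih =>
    rw [Function.iterate_succ_apply']
    have h1 : (Av i0 L)^[t] (fun w => ∑ j ∈ J, f j w) = fun w => ∑ j ∈ J, (Av i0 L)^[t] (f j) w :=
      funext ih
    rw [h1, Av_sum]
    refine Finset.sum_congr rfl fun j _ => ?_
    rw [Function.iterate_succ_apply']

/-! ### the exponential kernel -/

/-- `exp (- κ |x| / L)` -/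
noncomputable def ex1 (κ : ℝ) (L : ℕ) (x : ℤ) : ℝ≥0∞ := ENNReal.ofReal (Real.exp (-(κ * |(x : ℝ)| / L)))

/-- `exp (- κ |z| / L)` -/
noncomputable def exd (κ : ℝ) (L : ℕ) (z : V d) : ℝ≥0∞ := ENNReal.ofReal (Real.exp (-(κ * nm z / L)))

lemma exd_le_prod (hd : 0 < d) {κ : ℝ} (hκ : 0 ≤ κ) (L : ℕ) (z : V d) :
    exd κ L z ≤ ∏ i, ex1 (κ / d) L (z i) := by
  unfold exd ex1
  rw [← ENNReal.ofReal_prod_of_nonneg (fun i _ => (Real.exp_pos _).le)]
  apply ENNReal.ofReal_le_ofReal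
  rw [← Real.exp_sum]
  apply Real.exp_le_exp.2
  rw [Finset.sum_neg_distrib, neg_le_neg_iff, ← Finset.sum_div]
  apply div_le_div_of_nonneg_right _ (Nat.cast_nonneg L)
  rw [← Finset.mul_sum]
  have hd' : (0 : ℝ) < d := by exact_mod_cast hd
  have h1 : ∑ i : Fin d, |((z i : ℤ) : ℝ)| ≤ d * nm z := by
    calc ∑ i : Fin d, |((z i : ℤ) : ℝ)| ≤ ∑ _i : Fin d, (nm z : ℝ) := by
          refine Finset.sum_le_sum fun i _ => ?_
          have h := natAbs_le_nm z i
          have h2 : |((z i : ℤ) : ℝ)| = ((z i).natAbs : ℝ) := by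
            rw [Nat.cast_natAbs]; simp
          rw [h2]
          exact_mod_cast h
      _ = d * nm z := by rw [Finset.sum_const, Finset.card_univ, Fintype.card_fin, nsmul_eq_mul]
  calc κ / d * ∑ i : Fin d, |((z i : ℤ) : ℝ)| ≤ κ / d * (d * nm z) :=
        mul_le_mul_of_nonneg_left h1 (by positivity)
    _ = κ * nm z := by field_simp

/-- `∑_k exp (- κ |k|)` over the integers -/
noncomputable def cex (κ : ℝ) : ℝ≥0∞ := ∑' k : ℤ, ENNReal.ofReal (Real.exp (-(κ * |(k : ℝ)|)))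

lemma cex_lt_top {κ : ℝ} (hκ : 0 < κ) : cex κ < ⊤ := by
  unfold cex
  have h1 : Summable fun k : ℤ => Real.exp (-(κ * |(k : ℝ)|)) := by
    have h2 : Summable fun n : ℕ => Real.exp (-(κ * n)) := by
      have h3 : (fun n : ℕ => Real.exp (-(κ * n))) = fun n : ℕ => (Real.exp (-κ)) ^ n := by
        funext n
        rw [← Real.exp_nat_mul]
        congr 1
        ring
      rw [h3]
      exact summable_geometric_of_lt_one (Real.exp_pos _).le (by rw [Real.exp_lt_one_iff]; linarith)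
    refine Summable.of_nat_of_neg ?_ ?_
    · simpa using h2
    · simpa using h2
  rw [← ENNReal.ofReal_tsum_of_nonneg (fun k => (Real.exp_pos _).le) h1]
  exact ENNReal.ofReal_lt_top

lemma sum_ex1 {κ : ℝ} (hκ : 0 ≤ κ) {L : ℕ} (hL : 1 ≤ L) (x : ℤ) :
    ∑' k : ℤ, ex1 κ L (x + L * k) ≤ ENNReal.ofReal (Real.exp κ) * cex κ := by
  have hL0 : (0 : ℤ) < L := by exact_mod_cast hL
  have hLr : (0 : ℝ) < L := by exact_mod_cast hL
  have h1 : ∑' k : ℤ, ex1 κ L (x + L * k) = ∑' k : ℤ, ex1 κ L (x % L + L * k) := by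
    rw [← (Equiv.addRight (x / L)).tsum_eq (fun k : ℤ => ex1 κ L (x % L + L * k))]
    refine tsum_congr fun k => ?_
    congr 1
    simp only [Equiv.coe_addRight]
    have := Int.emod_add_mul_ediv x L
    linarith [mul_add (L : ℤ) k (x / L)]
  rw [h1, cex, ← ENNReal.tsum_mul_left]
  refine ENNReal.tsum_le_tsum fun k => ?_
  unfold ex1
  rw [← ENNReal.ofReal_mul (Real.exp_pos _).le, ← Real.exp_add]
  apply ENNReal.ofReal_le_ofReal
  apply Real.exp_le_exp.2
  have h2 : 0 ≤ x % L := Int.emod_nonneg _ hL0.ne'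
  have h3 : x % L < L := Int.emod_lt_of_pos _ hL0
  have h2' : (0 : ℝ) ≤ ((x % L : ℤ) : ℝ) := by exact_mod_cast h2
  have h3' : ((x % L : ℤ) : ℝ) < L := by exact_mod_cast h3
  have h4 : (L : ℝ) * (|(k : ℝ)| - 1) ≤ |((x % L + L * k : ℤ) : ℝ)| := by
    have e : (L : ℝ) * |(k : ℝ)| = |(L : ℝ) * k| := by rw [abs_mul, abs_of_pos hLr]
    have h5 : |(L : ℝ) * k| ≤ |((x % L + L * k : ℤ) : ℝ)| + |((x % L : ℤ) : ℝ)| := by
      have : (L : ℝ) * k = ((x % L + L * k : ℤ) : ℝ) - ((x % L : ℤ) : ℝ) := by push_cast; ring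
      rw [this]
      exact abs_sub _ _
    rw [abs_of_nonneg h2'] at h5
    nlinarith
  have h6 : κ * (|(k : ℝ)| - 1) ≤ κ * |((x % L + L * k : ℤ) : ℝ)| / L := by
    rw [mul_div_assoc]
    apply mul_le_mul_of_nonneg_left _ hκ
    rw [le_div_iff₀ hLr]
    linarith
  linarith

lemma sum_sq_le (n : ℕ) : ∑ t ∈ Finset.range n, 1 / ((t : ℝ) + 1) ^ 2 ≤ 2 := by
  have h : ∀ n : ℕ, ∑ t ∈ Finset.range (n + 1), 1 / ((t : ℝ) + 1) ^ 2 ≤ 2 - 1 / ((n : ℝ) + 1) := by
    intro n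
    induction n with
    | zero => norm_num
    | succ n ih =>
      rw [Finset.sum_range_succ]
      have h1 : 1 / (((n + 1 : ℕ) : ℝ) + 1) ^ 2 ≤ 1 / ((n : ℝ) + 1) - 1 / (((n + 1 : ℕ) : ℝ) + 1) := by
        push_cast
        have e : 1 / ((n : ℝ) + 1) - 1 / ((n : ℝ) + 1 + 1) = 1 / (((n : ℝ) + 1) * ((n : ℝ) + 1 + 1)) := by
          have h2 : (n : ℝ) + 1 ≠ 0 := by positivity
          have h3 : (n : ℝ) + 1 + 1 ≠ 0 := by positivity
          field_simp
          ring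
        rw [e]
        apply one_div_le_one_div_of_le (by positivity)
        nlinarith [Nat.cast_nonneg (α := ℝ) n]
      linarith
  rcases n with _ | n
  · simp
  · have h1 := h n
    have h2 : (0 : ℝ) ≤ 1 / ((n : ℝ) + 1) := by positivity
    linarith

lemma bt_le_one (t : ℕ) : bt t ≤ 1 := by
  unfold bt
  rw [← ENNReal.ofReal_one]
  apply ENNReal.ofReal_le_ofReal
  have h1 : (1 : ℝ) ≤ Real.sqrt (t + 1) := by
    rw [Real.one_le_sqrt]
    linarith [Nat.cast_nonneg (α := ℝ) t]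
  rw [div_le_one (by linarith)]
  exact h1

lemma bt_pow_sum (hd : 5 ≤ d) : ∑' t : ℕ, bt t ^ (d - 1) ≤ 2 := by
  apply ENNReal.tsum_le_of_sum_range_le
  intro n
  calc ∑ t ∈ Finset.range n, bt t ^ (d - 1) ≤
      ∑ t ∈ Finset.range n, ENNReal.ofReal (1 / ((t : ℝ) + 1) ^ 2) := by
        refine Finset.sum_le_sum fun t _ => ?_
        have h1 : bt t ^ (d - 1) ≤ bt t ^ 4 := pow_le_pow_right_of_le_one' (bt_le_one t) (by omega)
        refine h1.trans (le_of_eq ?_)
        unfold bt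
        rw [← ENNReal.ofReal_pow (by positivity)]
        congr 1
        have h2 : (0 : ℝ) ≤ (t : ℝ) + 1 := by positivity
        rw [div_pow, one_pow]
        congr 1
        calc Real.sqrt (t + 1) ^ 4 = (Real.sqrt (t + 1) ^ 2) ^ 2 := by ring
          _ = ((t : ℝ) + 1) ^ 2 := by rw [Real.sq_sqrt h2]
    _ = ENNReal.ofReal (∑ t ∈ Finset.range n, 1 / ((t : ℝ) + 1) ^ 2) := by
        rw [ENNReal.ofReal_sum_of_nonneg]
        intro t _
        positivity
    _ ≤ ENNReal.ofReal 2 := ENNReal.ofReal_le_ofReal (sum_sq_le n)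
    _ = 2 := by norm_num

/-- The constant of `rw_sum`. -/
noncomputable def crw (d : ℕ) (κ : ℝ) : ℝ≥0∞ :=
  2 * (ENNReal.ofReal (Real.exp (κ / d)) * cex (κ / d)) ^ d

lemma crw_lt_top (hd : 0 < d) {κ : ℝ} (hκ : 0 < κ) : crw d κ < ⊤ := by
  unfold crw
  have hd' : (0 : ℝ) < d := by exact_mod_cast hd
  exact ENNReal.mul_lt_top (by norm_num)
    (ENNReal.pow_lt_top (ENNReal.mul_lt_top ENNReal.ofReal_lt_top (cex_lt_top (by positivity))))

/-- **Random walk estimate.** The total mean of a sum of exponentials centred at points which are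
far apart in the direction of the drift. -/
theorem rw_sum (hd : 5 ≤ d) (i0 : Fin d) {κ : ℝ} (hκ : 0 ≤ κ) {L : ℕ} (hL : 1 ≤ L)
    {ι : Type*} (J : Finset ι) (c : ι → V d) (a : ℤ) (e : ι → ℤ) (he : Set.InjOn e J)
    (hc : ∀ j ∈ J, c j i0 = a + L * e j) (z : V d) :
    ∑' t : ℕ, (Av i0 L)^[t] (fun w => ∑ j ∈ J, exd κ L (w - c j)) z ≤ crw d κ := by
  have hd0 : 0 < d := by omega
  set C1 : ℝ≥0∞ := ENNReal.ofReal (Real.exp (κ / d)) * cex (κ / d) with hC1
  have hκ' : 0 ≤ κ / d := by positivity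
  have h1 : ∀ t : ℕ, (Av i0 L)^[t] (fun w => ∑ j ∈ J, exd κ L (w - c j)) z ≤
      C1 ^ d * bt t ^ (d - 1) := by
    intro t
    rw [Av_iter_sum]
    calc ∑ j ∈ J, (Av i0 L)^[t] (fun w => exd κ L (w - c j)) z
        ≤ ∑ j ∈ J, (Av i0 L)^[t] (fun w => ∏ i, ex1 (κ / d) L (w i - c j i)) z :=
          Finset.sum_le_sum fun j _ => Av_iter_mono i0 L (fun w => exd_le_prod hd0 hκ L (w - c j)) t z
      _ = ∑ j ∈ J, ex1 (κ / d) L (z i0 + L * 2 * t - c j i0) *
          ∏ i ∈ Finset.univ.erase i0, (A1 L)^[t] (fun x => ex1 (κ / d) L (x - c j i)) (z i) := by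
          refine Finset.sum_congr rfl fun j _ => ?_
          rw [Av_iter_prod i0 L (fun i x => ex1 (κ / d) L (x - c j i)) t]
      _ ≤ ∑ j ∈ J, ex1 (κ / d) L (z i0 + L * 2 * t - c j i0) * (bt t * C1) ^ (d - 1) := by
          refine Finset.sum_le_sum fun j _ => ?_
          gcongr
          calc ∏ i ∈ Finset.univ.erase i0, (A1 L)^[t] (fun x => ex1 (κ / d) L (x - c j i)) (z i)
              ≤ ∏ _i ∈ Finset.univ.erase i0, (bt t * C1) := by
                refine Finset.prod_le_prod' fun i _ => ?_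
                refine (A1_iter_le L _ t (z i)).trans ?_
                gcongr
                have h2 := sum_ex1 hκ' hL (z i - c j i)
                refine le_trans (le_of_eq ?_) h2
                refine tsum_congr fun k => ?_
                congr 1
                ring
            _ = (bt t * C1) ^ (d - 1) := by
                rw [Finset.prod_const, Finset.card_erase_of_mem (Finset.mem_univ _),
                  Finset.card_univ, Fintype.card_fin]
      _ = (∑ j ∈ J, ex1 (κ / d) L (z i0 + L * 2 * t - c j i0)) * (bt t * C1) ^ (d - 1) := by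
          rw [Finset.sum_mul]
      _ ≤ C1 * (bt t * C1) ^ (d - 1) := by
          gcongr
          have h3 : ∑ j ∈ J, ex1 (κ / d) L (z i0 + L * 2 * t - c j i0) =
              ∑ k ∈ J.image (fun j => -e j), ex1 (κ / d) L ((z i0 + L * 2 * t - a) + L * k) := by
            rw [Finset.sum_image]
            · refine Finset.sum_congr rfl fun j hj => ?_
              rw [hc j hj]
              congr 1
              ring
            · intro x hx y hy hxy
              exact he hx hy (neg_injective hxy)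
          rw [h3]
          exact (ENNReal.sum_le_tsum _).trans (sum_ex1 hκ' hL _)
      _ = C1 ^ d * bt t ^ (d - 1) := by
          rw [mul_pow]
          have h4 : d = (d - 1) + 1 := by omega
          calc C1 * (bt t ^ (d - 1) * C1 ^ (d - 1)) = C1 ^ ((d - 1) + 1) * bt t ^ (d - 1) := by
                rw [pow_succ]; ring
            _ = C1 ^ d * bt t ^ (d - 1) := by rw [← h4]
  calc ∑' t : ℕ, (Av i0 L)^[t] (fun w => ∑ j ∈ J, exd κ L (w - c j)) z
      ≤ ∑' t : ℕ, C1 ^ d * bt t ^ (d - 1) := ENNReal.tsum_le_tsum h1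
    _ = C1 ^ d * ∑' t : ℕ, bt t ^ (d - 1) := ENNReal.tsum_mul_left
    _ ≤ C1 ^ d * 2 := by gcongr; exact bt_pow_sum hd
    _ = crw d κ := by rw [crw, mul_comm]

/-! ### the reversed walk -/

/-- one step of the reversed walk -/
noncomputable def Avm (i0 : Fin d) (L : ℕ) (f : V d → ℝ≥0∞) (z : V d) : ℝ≥0∞ :=
  ((2 : ℝ≥0∞) ^ (d - 1))⁻¹ * ∑ v ∈ stp i0, f (z - fun i => (L : ℤ) * v i)

lemma Avm_iter (i0 : Fin d) (L : ℕ) (f : V d → ℝ≥0∞) (t : ℕ) (z : V d) :
    (Avm i0 L)^[t] f z = (Av i0 L)^[t] (fun w => f (-w)) (-z) := by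
  induction t generalizing z with
  | zero => simp
  | succ t ih =>
    rw [Function.iterate_succ_apply', Function.iterate_succ_apply', Avm, Av]
    congr 1
    refine Finset.sum_congr rfl fun v _ => ?_
    rw [ih]
    have h1 : -(z - fun i => (L : ℤ) * v i) = -z + fun i => (L : ℤ) * v i := by
      rw [neg_sub, sub_eq_add_neg, add_comm]
    rw [h1]

lemma exd_neg (κ : ℝ) (L : ℕ) (z : V d) : exd κ L (-z) = exd κ L z := by
  unfold exd
  rw [nm_neg]

lemma exd_sub_comm (κ : ℝ) (L : ℕ) (z w : V d) : exd κ L (z - w) = exd κ L (w - z) := by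
  rw [← exd_neg, neg_sub]

theorem rwm_sum (hd : 5 ≤ d) (i0 : Fin d) {κ : ℝ} (hκ : 0 ≤ κ) {L : ℕ} (hL : 1 ≤ L)
    {ι : Type*} (J : Finset ι) (c : ι → V d) (a : ℤ) (e : ι → ℤ) (he : Set.InjOn e J)
    (hc : ∀ j ∈ J, c j i0 = a + L * e j) (z : V d) :
    ∑' t : ℕ, (Avm i0 L)^[t] (fun w => ∑ j ∈ J, exd κ L (w - c j)) z ≤ crw d κ := by
  have h := rw_sum hd i0 hκ hL J (fun j => -c j) (-a) (fun j => -e j)
    (fun x hx y hy hxy => he hx hy (neg_injective hxy))
    (fun j hj => by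
      show -(c j i0) = _
      rw [hc j hj]
      ring) (-z)
  refine le_trans (le_of_eq ?_) h
  refine tsum_congr fun t => ?_
  rw [Avm_iter]
  have h1 : (fun w => ∑ j ∈ J, exd κ L (-w - c j)) = fun w => ∑ j ∈ J, exd κ L (w - -c j) := by
    funext w
    refine Finset.sum_congr rfl fun j _ => ?_
    rw [← exd_neg]
    congr 1
    abel
  rw [h1]

/-! ### partial sums -/

/-- `∑_{t < r} E g (z + S_t)` -/
noncomputable def rws (i0 : Fin d) (L : ℕ) (g : V d → ℝ≥0∞) (r : ℕ) (z : V d) : ℝ≥0∞ :=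
  ∑ t ∈ Finset.range r, (Av i0 L)^[t] g z

lemma rws_zero (i0 : Fin d) (L : ℕ) (g : V d → ℝ≥0∞) (z : V d) : rws i0 L g 0 z = 0 := by
  simp [rws]

lemma rws_succ (i0 : Fin d) (L : ℕ) (g : V d → ℝ≥0∞) (r : ℕ) (z : V d) :
    rws i0 L g (r + 1) z = g z + Av i0 L (rws i0 L g r) z := by
  unfold rws
  rw [Finset.sum_range_succ', add_comm]
  congr 1
  have h : (fun w => ∑ t ∈ Finset.range r, (Av i0 L)^[t] g w) =
      (fun w => ∑ t ∈ Finset.range r, (fun t => (Av i0 L)^[t] g) t w) := rfl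
  rw [h, Av_sum]
  refine Finset.sum_congr rfl fun t _ => ?_
  rw [Function.iterate_succ_apply']

lemma rws_le (i0 : Fin d) (L : ℕ) (g : V d → ℝ≥0∞) (r : ℕ) (z : V d) :
    rws i0 L g r z ≤ ∑' t : ℕ, (Av i0 L)^[t] g z := ENNReal.sum_le_tsum _

lemma rws_mono (i0 : Fin d) (L : ℕ) (g : V d → ℝ≥0∞) {r r' : ℕ} (h : r ≤ r') (z : V d) :
    rws i0 L g r z ≤ rws i0 L g r' z := by
  unfold rws
  exact Finset.sum_le_sum_of_subset (Finset.range_mono h)

end H54CF
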