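import Pool.Agent.H54.CF.Rw
import Pool.Agent.H95.LBD.SumA
import Pool.Agent.H5.DG.Indep

/-!
PROJECT DS (MP_0d9ad5_pr), chain flow (note 2718). Kernels and the packing lemma.
-/

set_option autoImplicit false

namespace H54CF

open H5DF H95LBD ENNReal

variable {d : ℕ}

/-- The kernel `(1 + |z|)^(b - d) exp (- κ |z| / L)`. -/
noncomputable def Kb (b : ℕ) (κ : ℝ) (L : ℕ) (z : V d) : ℝ≥0∞ :=
  ENNReal.ofReal (Real.exp (-(κ * nm z / L)) / (1 + (nm z : ℝ)) ^ (d - b))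

/-- `exp (κ |z| / L)` -/
noncomputable def exg (κ : ℝ) (L : ℕ) (z : V d) : ℝ≥0∞ := ENNReal.ofReal (Real.exp (κ * nm z / L))

lemma Kb_neg (b : ℕ) (κ : ℝ) (L : ℕ) (z : V d) : Kb b κ L (-z) = Kb b κ L z := by
  unfold Kb
  rw [nm_neg]

lemma Kb_sub_comm (b : ℕ) (κ : ℝ) (L : ℕ) (z w : V d) : Kb b κ L (z - w) = Kb b κ L (w - z) := by
  rw [← Kb_neg, neg_sub]

/-- `exp (- κ |x - w| / L) ≤ exp (- κ |x - u| / L) exp (κ |w - u| / L)` -/
lemma exp_tri {κ : ℝ} (hκ : 0 ≤ κ) (L : ℕ) (x w u : V d) :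
    Real.exp (-(κ * nm (x - w) / L)) ≤
      Real.exp (-(κ * nm (x - u) / L)) * Real.exp (κ * nm (w - u) / L) := by
  rw [← Real.exp_add]
  apply Real.exp_le_exp.2
  have h1 : (nm (x - u) : ℝ) ≤ nm (x - w) + nm (w - u) := by exact_mod_cast nm_tri x w u
  have h2 : κ * (nm (x - u) : ℝ) / L ≤ κ * nm (x - w) / L + κ * nm (w - u) / L := by
    rw [← add_div, ← mul_add]
    gcongr
  linarith

lemma Kb_ball {C : ℝ}
    (h : ∀ n p q : ℕ, p + (q + 1) = d →
      ∑ v ∈ Box d n, 1 / (1 + (nm v : ℝ)) ^ p ≤ C * (1 + (n : ℝ)) ^ (q + 1))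
    {b : ℕ} (hb : 1 ≤ b) (hbd : b ≤ d) {κ : ℝ} (hκ : 0 ≤ κ) (L : ℕ) (ρ : ℕ)
    (A : Finset (V d)) (x : V d) (hA : ∀ w ∈ A, nm (x - w) ≤ ρ) :
    ∑ w ∈ A, Kb b κ L (x - w) ≤ ENNReal.ofReal (C * (1 + (ρ : ℝ)) ^ b) := by
  unfold Kb
  rw [← ENNReal.ofReal_sum_of_nonneg (fun w _ => by positivity)]
  apply ENNReal.ofReal_le_ofReal
  calc ∑ w ∈ A, Real.exp (-(κ * nm (x - w) / L)) / (1 + (nm (x - w) : ℝ)) ^ (d - b)
      ≤ ∑ w ∈ A, 1 / (1 + (nm (x - w) : ℝ)) ^ (d - b) := by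
        refine Finset.sum_le_sum fun w _ => ?_
        apply div_le_div_of_nonneg_right _ (by positivity)
        rw [Real.exp_le_one_iff]
        have : (0 : ℝ) ≤ κ * nm (x - w) / L := by positivity
        linarith
    _ = ∑ v ∈ A.image (fun w => x - w), 1 / (1 + (nm v : ℝ)) ^ (d - b) := by
        rw [Finset.sum_image]
        intro w _ w' _ hww
        exact sub_right_injective hww
    _ ≤ ∑ v ∈ Box d ρ, 1 / (1 + (nm v : ℝ)) ^ (d - b) := by
        apply Finset.sum_le_sum_of_subset_of_nonneg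
        · intro v hv
          rw [Finset.mem_image] at hv
          obtain ⟨w, hw, rfl⟩ := hv
          rw [mem_Box']
          exact hA w hw
        · intro v _ _
          positivity
    _ ≤ C * (1 + (ρ : ℝ)) ^ b := by
        have h1 := h ρ (d - b) (b - 1) (by omega)
        have h2 : b - 1 + 1 = b := by omega
        rwa [h2] at h1

/-- **Packing lemma**, basic form. -/
theorem pack_basic (hd : 1 ≤ d) : ∃ C : ℝ, 0 < C ∧ ∀ {b : ℕ}, 1 ≤ b → b ≤ d → ∀ {κ : ℝ}, 0 ≤ κ →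
    ∀ (L ρ : ℕ) (A : Finset (V d)) (x u : V d) (M : ℝ≥0∞), ∑ w ∈ A, exg κ L (w - u) ≤ M →
    ∑ w ∈ A, Kb b κ L (x - w) ≤
      (ENNReal.ofReal (C * (1 + (ρ : ℝ)) ^ b)) * (if ∃ w ∈ A, nm (x - w) ≤ ρ then 1 else 0) +
      ENNReal.ofReal (Real.exp (-(κ * nm (x - u) / L)) / (1 + (ρ : ℝ)) ^ (d - b)) * M := by
  classical
  obtain ⟨C, hC, h⟩ := SumA_box (d := d) hd
  refine ⟨C, hC, fun {b} hb hbd {κ} hκ L ρ A x u M hM => ?_⟩
  rw [← Finset.sum_filter_add_sum_filter_not A (fun w => nm (x - w) ≤ ρ)]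
  apply add_le_add
  · by_cases hex : ∃ w ∈ A, nm (x - w) ≤ ρ
    · rw [if_pos hex, mul_one]
      apply Kb_ball h hb hbd hκ L ρ
      intro w hw
      exact (Finset.mem_filter.1 hw).2
    · rw [if_neg hex, mul_zero, nonpos_iff_eq_zero]
      apply Finset.sum_eq_zero
      intro w hw
      rw [Finset.mem_filter] at hw
      exact absurd ⟨w, hw.1, hw.2⟩ hex
  · calc ∑ w ∈ A.filter (fun w => ¬ nm (x - w) ≤ ρ), Kb b κ L (x - w)
        ≤ ∑ w ∈ A.filter (fun w => ¬ nm (x - w) ≤ ρ),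
          ENNReal.ofReal (Real.exp (-(κ * nm (x - u) / L)) / (1 + (ρ : ℝ)) ^ (d - b)) *
            exg κ L (w - u) := by
          refine Finset.sum_le_sum fun w hw => ?_
          rw [Finset.mem_filter, not_le] at hw
          unfold Kb exg
          rw [← ENNReal.ofReal_mul (by positivity)]
          apply ENNReal.ofReal_le_ofReal
          have h1 := exp_tri hκ L x w u
          have h2 : (1 + (ρ : ℝ)) ^ (d - b) ≤ (1 + (nm (x - w) : ℝ)) ^ (d - b) := by
            apply pow_le_pow_left₀ (by positivity)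
            have : (ρ : ℝ) ≤ nm (x - w) := by exact_mod_cast hw.2.le
            linarith
          calc Real.exp (-(κ * nm (x - w) / L)) / (1 + (nm (x - w) : ℝ)) ^ (d - b)
              ≤ Real.exp (-(κ * nm (x - w) / L)) / (1 + (ρ : ℝ)) ^ (d - b) :=
                div_le_div_of_nonneg_left (Real.exp_pos _).le (by positivity) h2
            _ ≤ (Real.exp (-(κ * nm (x - u) / L)) * Real.exp (κ * nm (w - u) / L)) /
                (1 + (ρ : ℝ)) ^ (d - b) := div_le_div_of_nonneg_right h1 (by positivity)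
            _ = _ := by ring
      _ = ENNReal.ofReal (Real.exp (-(κ * nm (x - u) / L)) / (1 + (ρ : ℝ)) ^ (d - b)) *
          ∑ w ∈ A.filter (fun w => ¬ nm (x - w) ≤ ρ), exg κ L (w - u) := by rw [Finset.mul_sum]
      _ ≤ _ := by
          gcongr
          exact (Finset.sum_le_sum_of_subset (Finset.filter_subset _ _)).trans hM

/-- if `A` has a point near `x` then `x` is at distance `O(L log L)` from `u` -/
lemma near_bound {κ : ℝ} (hκ : 0 < κ) {L ρ : ℕ} (hL : 1 ≤ L) {A : Finset (V d)} {x u w : V d} {M : ℝ}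
    (hM : 0 < M) (hA : ∑ w ∈ A, exg κ L (w - u) ≤ ENNReal.ofReal M) (hw : w ∈ A) (hxw : nm (x - w) ≤ ρ) :
    (nm (x - u) : ℝ) ≤ ρ + L * Real.log M / κ := by
  have hLr : (0 : ℝ) < L := by exact_mod_cast hL
  have h1 : exg κ L (w - u) ≤ ENNReal.ofReal M :=
    (Finset.single_le_sum (f := fun w => exg κ L (w - u)) (fun _ _ => zero_le) hw).trans hA
  unfold exg at h1
  rw [ENNReal.ofReal_le_ofReal_iff hM.le] at h1
  have h2 : κ * nm (w - u) / L ≤ Real.log M := by
    rw [← Real.log_exp (κ * nm (w - u) / L)]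
    exact Real.log_le_log (Real.exp_pos _) h1
  have h3 : (nm (w - u) : ℝ) ≤ L * Real.log M / κ := by
    rw [le_div_iff₀ hκ]
    rw [div_le_iff₀ hLr] at h2
    linarith
  have h4 : (nm (x - u) : ℝ) ≤ nm (x - w) + nm (w - u) := by exact_mod_cast nm_tri x w u
  have h5 : (nm (x - w) : ℝ) ≤ ρ := by exact_mod_cast hxw
  linarith

/-- **Packing lemma** for `L = l^9`, `ρ = l^4`. -/
theorem pack_l {b : ℕ} (hb : 1 ≤ b) (hbd : b < d) (g : ℕ) (hg1 : 4 * b ≤ g) (hg2 : 36 ≤ g + 4 * (d - b))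
    {κ ε Λ η : ℝ} (hκ : 0 < κ) (hε : 0 ≤ ε) (hεκ : 36 * ε ≤ κ) (hΛ : 1 ≤ Λ) (hη : 0 < η) :
    ∃ l0 : ℕ, ∀ l : ℕ, l0 ≤ l → ∀ (A : Finset (V d)) (x u : V d) (m : ℕ),
      (2 * m - 1 : ℝ) * (l ^ 9 : ℕ) ≤ nm (x - u) →
      ∑ w ∈ A, exg κ (l ^ 9) (w - u) ≤ ENNReal.ofReal (Λ * ((l ^ 9 : ℕ) : ℝ) ^ 4) →
      ∑ w ∈ A, Kb b κ (l ^ 9) (x - w) ≤ ENNReal.ofReal (η * (l : ℝ) ^ (g + 1) * Real.exp (-(ε * m))) := by
  classical
  obtain ⟨C, hC, hpk⟩ := pack_basic (d := d) (by omega)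
  -- constants
  set c0 : ℝ := Real.exp (-(ε + Real.log Λ)) with hc0
  have hc0p : 0 < c0 := Real.exp_pos _
  obtain ⟨l1, hl1⟩ := exists_nat_ge (((2 * C * 2 ^ b) / (η * c0)) ^ 2)
  obtain ⟨l2, hl2⟩ := exists_nat_ge (2 * Λ * Real.exp κ / η)
  refine ⟨max 1 (max l1 l2), fun l hl A x u m hm hA => ?_⟩
  have hl1' : 1 ≤ l := (le_max_left _ _).trans hl
  have hl1r : (1 : ℝ) ≤ l := by exact_mod_cast hl1'
  have hl0 : (0 : ℝ) < l := by linarith
  have hll1 : ((2 * C * 2 ^ b) / (η * c0)) ^ 2 ≤ l :=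
    hl1.trans (by exact_mod_cast ((le_max_left _ _).trans (le_max_right _ _)).trans hl)
  have hll2 : 2 * Λ * Real.exp κ / η ≤ l :=
    hl2.trans (by exact_mod_cast ((le_max_right _ _).trans (le_max_right _ _)).trans hl)
  have hL1 : 1 ≤ l ^ 9 := Nat.one_le_pow _ _ (by omega)
  have hLr : (0 : ℝ) < ((l ^ 9 : ℕ) : ℝ) := by exact_mod_cast (by omega : 0 < l ^ 9)
  have hlogΛ : 0 ≤ Real.log Λ := Real.log_nonneg hΛ
  have hlogl : 0 ≤ Real.log l := Real.log_nonneg hl1r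
  refine (hpk hb hbd.le hκ.le (l ^ 9) (l ^ 4) A x u _ hA).trans ?_
  have hsplit : ENNReal.ofReal (η * (l : ℝ) ^ (g + 1) * Real.exp (-(ε * m))) =
      ENNReal.ofReal (η / 2 * (l : ℝ) ^ (g + 1) * Real.exp (-(ε * m))) +
      ENNReal.ofReal (η / 2 * (l : ℝ) ^ (g + 1) * Real.exp (-(ε * m))) := by
    rw [← ENNReal.ofReal_add (by positivity) (by positivity)]
    congr 1
    ring
  rw [hsplit]
  apply add_le_add
  · -- first term
    by_cases hex : ∃ w ∈ A, nm (x - w) ≤ l ^ 4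
    · rw [if_pos hex, mul_one]
      obtain ⟨w, hw, hxw⟩ := hex
      apply ENNReal.ofReal_le_ofReal
      have h1 := near_bound hκ hL1 (M := Λ * ((l ^ 9 : ℕ) : ℝ) ^ 4) (by positivity) hA hw hxw
      have h2 : Real.log (Λ * ((l ^ 9 : ℕ) : ℝ) ^ 4) = Real.log Λ + 36 * Real.log l := by
        rw [Real.log_mul (by positivity) (by positivity)]
        push_cast
        rw [← pow_mul, Real.log_pow]
        norm_num
      rw [h2] at h1
      have h3 : ((l ^ 4 : ℕ) : ℝ) ≤ ((l ^ 9 : ℕ) : ℝ) := by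
        exact_mod_cast Nat.pow_le_pow_right hl1' (by norm_num)
      have h4 : (2 * m - 1 : ℝ) ≤ 1 + (Real.log Λ + 36 * Real.log l) / κ := by
        have h5 : (2 * m - 1 : ℝ) * ((l ^ 9 : ℕ) : ℝ) ≤
            (1 + (Real.log Λ + 36 * Real.log l) / κ) * ((l ^ 9 : ℕ) : ℝ) := by
          calc (2 * m - 1 : ℝ) * ((l ^ 9 : ℕ) : ℝ) ≤ nm (x - u) := hm
            _ ≤ ((l ^ 4 : ℕ) : ℝ) + ((l ^ 9 : ℕ) : ℝ) * (Real.log Λ + 36 * Real.log l) / κ := h1
            _ ≤ ((l ^ 9 : ℕ) : ℝ) + ((l ^ 9 : ℕ) : ℝ) * (Real.log Λ + 36 * Real.log l) / κ := by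
                linarith
            _ = _ := by ring
        exact le_of_mul_le_mul_right h5 hLr
      have h6 : ε * m ≤ ε + Real.log Λ + Real.log l / 2 := by
        have h7 : ε * m ≤ ε * (1 + (Real.log Λ + 36 * Real.log l) / (2 * κ)) := by
          apply mul_le_mul_of_nonneg_left _ hε
          have : (Real.log Λ + 36 * Real.log l) / (2 * κ) =
              ((Real.log Λ + 36 * Real.log l) / κ) / 2 := by
            rw [div_div, mul_comm κ 2]
          rw [this]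
          linarith
        have h8 : ε * ((Real.log Λ + 36 * Real.log l) / (2 * κ)) ≤
            (Real.log Λ + 36 * Real.log l) / 72 := by
          have h9 : ε / κ ≤ 1 / 36 := by
            rw [div_le_div_iff₀ hκ (by norm_num)]
            linarith
          have h10 : ε * ((Real.log Λ + 36 * Real.log l) / (2 * κ)) =
              (ε / κ) * ((Real.log Λ + 36 * Real.log l) / 2) := by
            field_simp
          rw [h10]
          calc (ε / κ) * ((Real.log Λ + 36 * Real.log l) / 2) ≤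
              (1 / 36) * ((Real.log Λ + 36 * Real.log l) / 2) :=
                mul_le_mul_of_nonneg_right h9 (by positivity)
            _ = _ := by ring
        calc ε * m ≤ ε * (1 + (Real.log Λ + 36 * Real.log l) / (2 * κ)) := h7
          _ = ε + ε * ((Real.log Λ + 36 * Real.log l) / (2 * κ)) := by ring
          _ ≤ ε + (Real.log Λ + 36 * Real.log l) / 72 := by linarith
          _ ≤ ε + Real.log Λ + Real.log l / 2 := by linarith
      have h11 : c0 / Real.sqrt l ≤ Real.exp (-(ε * m)) := by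
        have h12 : Real.exp (-(Real.log l / 2)) = 1 / Real.sqrt l := by
          rw [Real.exp_neg, ← Real.log_sqrt hl0.le, Real.exp_log (Real.sqrt_pos.2 hl0), one_div]
        calc c0 / Real.sqrt l = c0 * (1 / Real.sqrt l) := by ring
          _ = Real.exp (-(ε + Real.log Λ) + -(Real.log l / 2)) := by rw [Real.exp_add, h12]
          _ ≤ Real.exp (-(ε * m)) := Real.exp_le_exp.2 (by linarith)
      have hs : 0 < Real.sqrt l := Real.sqrt_pos.2 hl0
      have h13 : (2 * C * 2 ^ b) / (η * c0) ≤ Real.sqrt l := by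
        apply Real.le_sqrt_of_sq_le hll1
      have h14 : (1 + ((l ^ 4 : ℕ) : ℝ)) ^ b ≤ 2 ^ b * (l : ℝ) ^ g := by
        have h15 : 1 + ((l ^ 4 : ℕ) : ℝ) ≤ 2 * (l : ℝ) ^ 4 := by
          push_cast
          have : (1 : ℝ) ≤ (l : ℝ) ^ 4 := one_le_pow₀ hl1r
          linarith
        calc (1 + ((l ^ 4 : ℕ) : ℝ)) ^ b ≤ (2 * (l : ℝ) ^ 4) ^ b :=
              pow_le_pow_left₀ (by positivity) h15 b
          _ = 2 ^ b * (l : ℝ) ^ (4 * b) := by rw [mul_pow, ← pow_mul]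
          _ ≤ 2 ^ b * (l : ℝ) ^ g := by
              apply mul_le_mul_of_nonneg_left _ (by positivity)
              exact pow_le_pow_right₀ hl1r hg1
      have h16 : 2 * C * 2 ^ b ≤ η * c0 * Real.sqrt l := by
        rw [div_le_iff₀ (by positivity)] at h13
        linarith
      calc C * (1 + ((l ^ 4 : ℕ) : ℝ)) ^ b ≤ C * (2 ^ b * (l : ℝ) ^ g) :=
            mul_le_mul_of_nonneg_left h14 hC.le
        _ = (2 * C * 2 ^ b) * ((l : ℝ) ^ g / 2) := by ring
        _ ≤ (η * c0 * Real.sqrt l) * ((l : ℝ) ^ g / 2) :=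
            mul_le_mul_of_nonneg_right h16 (by positivity)
        _ = η / 2 * (l : ℝ) ^ g * (c0 * Real.sqrt l) := by ring
        _ = η / 2 * (l : ℝ) ^ (g + 1) * (c0 / Real.sqrt l) := by
            have h17 : (l : ℝ) = Real.sqrt l * Real.sqrt l := (Real.mul_self_sqrt hl0.le).symm
            have h18 : c0 * Real.sqrt l = (l : ℝ) * (c0 / Real.sqrt l) := by
              rw [mul_div_assoc', eq_div_iff hs.ne']
              calc c0 * Real.sqrt l * Real.sqrt l = c0 * (Real.sqrt l * Real.sqrt l) := by ring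
                _ = c0 * l := by rw [← h17]
                _ = l * c0 := by ring
            rw [h18, pow_succ]
            ring
        _ ≤ η / 2 * (l : ℝ) ^ (g + 1) * Real.exp (-(ε * m)) :=
            mul_le_mul_of_nonneg_left h11 (by positivity)
    · rw [if_neg hex, mul_zero]
      exact zero_le
  · -- second term
    rw [← ENNReal.ofReal_mul (by positivity)]
    apply ENNReal.ofReal_le_ofReal
    have h1 : Real.exp (-(κ * nm (x - u) / ((l ^ 9 : ℕ) : ℝ))) ≤ Real.exp κ * Real.exp (-(ε * m)) := by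
      rw [← Real.exp_add]
      apply Real.exp_le_exp.2
      have h2 : (2 * m - 1 : ℝ) ≤ nm (x - u) / ((l ^ 9 : ℕ) : ℝ) := by
        rw [le_div_iff₀ hLr]
        exact hm
      have h3 : κ * (2 * m - 1 : ℝ) ≤ κ * nm (x - u) / ((l ^ 9 : ℕ) : ℝ) := by
        rw [mul_div_assoc]
        exact mul_le_mul_of_nonneg_left h2 hκ.le
      have h4 : ε * m ≤ κ * (2 * m) := by
        have hm0 : (0 : ℝ) ≤ m := Nat.cast_nonneg m
        nlinarith
      linarith
    have h5 : (l : ℝ) ^ (4 * (d - b)) ≤ (1 + ((l ^ 4 : ℕ) : ℝ)) ^ (d - b) := by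
      rw [pow_mul]
      apply pow_le_pow_left₀ (by positivity)
      push_cast
      linarith
    have h6 : ((l ^ 9 : ℕ) : ℝ) ^ 4 ≤ (l : ℝ) ^ g * (l : ℝ) ^ (4 * (d - b)) := by
      push_cast
      rw [← pow_mul, ← pow_add]
      exact pow_le_pow_right₀ hl1r (by omega)
    have h7 : 2 * Λ * Real.exp κ ≤ η * l := by
      rw [div_le_iff₀ hη] at hll2
      linarith
    calc Real.exp (-(κ * nm (x - u) / ((l ^ 9 : ℕ) : ℝ))) / (1 + ((l ^ 4 : ℕ) : ℝ)) ^ (d - b) *
          (Λ * ((l ^ 9 : ℕ) : ℝ) ^ 4)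
        ≤ (Real.exp κ * Real.exp (-(ε * m))) / (l : ℝ) ^ (4 * (d - b)) *
          (Λ * ((l : ℝ) ^ g * (l : ℝ) ^ (4 * (d - b)))) := by
          apply mul_le_mul _ _ (by positivity) (by positivity)
          · exact div_le_div₀ (by positivity) h1 (by positivity) h5
          · exact mul_le_mul_of_nonneg_left h6 (by linarith)
      _ = (2 * Λ * Real.exp κ) * ((l : ℝ) ^ g * Real.exp (-(ε * m)) / 2) := by
          have : (l : ℝ) ^ (4 * (d - b)) ≠ 0 := by positivity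
          field_simp
      _ ≤ (η * l) * ((l : ℝ) ^ g * Real.exp (-(ε * m)) / 2) :=
          mul_le_mul_of_nonneg_right h7 (by positivity)
      _ = η / 2 * (l : ℝ) ^ (g + 1) * Real.exp (-(ε * m)) := by
          rw [pow_succ]
          ring

end H54CF
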