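import Pool.Agent.H70.CF.Rw
import Pool.Agent.H5.DF.Energy2
import Pool.Agent.H5.DG.Explore
import Pool.Agent.H95.LBD.BkA

/-! Everything of this file has moved to `Pool/Agent/H70/CF/Rw.lean`. -/
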